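import Mathlib
import Pool.Agent.FJ3.MAINC

/-!
# Fujita's very ampleness conjecture for fibre products of projective bundles over curves

Let `C` be a smooth projective curve over an algebraically closed field `k` of characteristic zero,
given by its function field `K`, a finite extension of `k(x)`, let `E₁, ..., E_t` be vector bundles
of ranks `n₁, ..., n_t` on `C`, and `X = ℙ(E₁) ×_C ... ×_C ℙ(E_t)` the fibre product of the
projective bundles of one-dimensional quotients of the fibres, so `dim X = 1 + ∑ (n_j - 1)`. Let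
`A_i = O(m_i1, ..., m_it) ⊗ B_i`, `i = 1, ..., N`, be ample line bundles on `X`, and
`G = O(b₁, ..., b_t) ⊗ κ`, `b_j ∈ ℤ`, a line bundle on `X` with `∑ b_j μ_min(E_j) + deg κ ≥ 0`,
where `μ_min(E_j)` is the least slope of the quotient bundles of `E_j`. The theorem says that
`K_C ⊗ G ⊗ A_1 ⊗ ... ⊗ A_N` is very ample if `N ≥ 3` and `N + b_j ≥ 2` for all `j`; its sections are
those of `Sym^d₁ E₁ ⊗ ... ⊗ Sym^d_t E_t ⊗ M'` on `C` with `d_j = ∑_i m_ij + b_j` and
`M' = K_C ⊗ κ ⊗ B_1 ⊗ ... ⊗ B_N`.

1. Let `L = O(y₁, ..., y_t) ⊗ M` be a nef line bundle on `X`, for example `L` trivial. By the second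
part of the theorem, `G = K_(X/C) ⊗ L` satisfies the condition, as
`K_(X/C) = O(-n₁, ..., -n_t) ⊗ det E₁ ⊗ ... ⊗ det E_t`, so `K_X ⊗ L ⊗ A_1 ⊗ ... ⊗ A_N` is very ample
if `N ≥ 3` and `N + y_j ≥ n_j + 2` for all `j`. If `L` is trivial, all `A_i` are the same line
bundle `A` and `N = dim X + 2 ≥ n_j + 2`, this is Fujita's very ampleness conjecture for `X` and
`A`.

2. Let `E` be a vector bundle of rank `n` on `C`, `0 = d₀ < d₁ < ... < d_t < d_(t+1) = n`, and
`Z = Fl(E; d₁, ..., d_t)` the bundle of the flags of quotients of ranks `d_t, ..., d₁` of the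
fibres of `E`. It is embedded in `X` for `E_j = Λ^(d_j) E`, all line bundles on `Z` are restrictions
of line bundles `O(m) ⊗ B` on `X`, and `K_(Z/C)` is the restriction of `G = O(-c₁, ..., -c_t) ⊗ κ'`
for `c_j = d_(j+1) - d_(j-1)`, `κ' = (det E)^(d_t)`, which satisfies the condition by the second
part of the theorem, as `deg κ' = d_t deg E = ∑ c_j d_j deg E / n = ∑ c_j deg E_j / rk E_j`. If
`O(m) ⊗ B` is ample on `Z`, then it satisfies the conditions on `A_i`, as
`∑ m_j μ_min(Λ^(d_j) E) + deg B > 0` (look at the flags of quotients compatible with the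
Harder-Narasimhan filtration of `E`). As `dim Z ≥ n ≥ c_j`, this gives Fujita's conjecture for all
flag bundles (for example Grassmannian bundles) over curves.

3. Let `Z'` be a smooth complete intersection of positive dimension, in `X` or in a flag bundle `Z`,
of `e` divisors with positive degrees on the lines in the fibres. Then `K_(Z'/C)` is the restriction
of `G = G' ⊗ L`, `G'` from 1 or 2 and `L` the sum of the divisors, and `N = dim Z' + 2` satisfies
`N ≥ 3`, `N + b_j ≥ 2`. The condition on `G` holds if `L` is nef, and also if `b_j < 0` for all `j`: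
otherwise `G⁻¹` would be ample, but `-K_(Z'/C)` is never ample (Miyaoka).

The definitions are in `Pool/Agent/Helper38/Scroll/P1.lean` (orders of rational functions at the
points of the projective line, local rings), `Pool/Agent/Helper38/Scroll/Statement.lean` (curves,
vector bundles, quotient bundles, differentials), `Pool/Agent/FJ/Statement.lean` (line bundles on
the curve), `Pool/Agent/FJ3/Statement.lean` (line bundles on `X`, their sections, very ampleness)
and `Pool/Agent/FJ3/MinSlope.lean` (the condition on `G`). Main steps of the proof: Serre duality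
for families of lattices (`Helper38/Scroll/Duality.lean`) gives a functional on the sections
vanishing at a subscheme of length two; it pairs the direct images of `A_1` and `A_2` with the
complementary forms, and the determinant of the pairing of one of them is a multilinear form on
quotients of these direct images and of the `E_j` with few poles (`FJ3/RAD.lean`, `FJ3/THE.lean`,
`FJ3/LOC.lean`); the degrees of the values of multilinear forms on several vector bundles are
bounded below by the sum of the minimal slopes (`FJ/S`, `FJ2/SE.lean`, in characteristic zero); as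
the direct image of an ample line bundle has no quotient of degree zero (`FJ3/SLP.lean`), this is a
contradiction (`FJ3/VAN.lean`).
-/

set_option autoImplicit false

open Pool.Agent.Helper38.Scroll Pool.Agent.FJ Pool.Agent.FJ3

namespace Pool.Agent.Results.MP_e09b14_ag.FibreProducts

/-- **Fujita's very ampleness conjecture for fibre products of projective bundles over curves.**
Let `A_i = O(m i 1, ..., m i t) ⊗ B_i`, `i = 1, ..., N`, be ample line bundles on
`X = ℙ(E₁) ×_C ... ×_C ℙ(E_t)` (`β i` are local generators of `B_i`) and `G = O(b₁, ..., b_t) ⊗ κ` a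
line bundle with `∑ b_j μ_min(E_j) + deg κ ≥ 0`. If `N ≥ 3` and `N + b_j ≥ 2` for all `j`, then
`K_C ⊗ G ⊗ A_1 ⊗ ... ⊗ A_N` is very ample. Second part: the condition on `G` holds for
`G = O(-c₁, ..., -c_t) ⊗ κ' ⊗ L`, where `L = O(y₁, ..., y_t) ⊗ M` is nef (`μ` are local generators
of `M`) and `c_j ≥ 0`, `deg κ' ≥ ∑ c_j deg E_j / n_j`, and `c_j = n_j`,
`κ' = det E₁ ⊗ ... ⊗ det E_t`, i.e. `G = K_(X/C) ⊗ L`, is an example. (The last part says that local
generators `w a` of the canonical sheaf of `C`, as required in the first part, exist.) -/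
theorem result {k K : Type} [Field k] [IsAlgClosed k] [CharZero k] [Field K]
    [Algebra (RatFunc k) K] [Algebra k K] [IsScalarTower k (RatFunc k) K]
    [FiniteDimensional (RatFunc k) K] :
    (∀ (t : ℕ) (n : Fin t → ℕ) (g : ∀ j, Option k → Matrix (Fin (n j)) (Fin (n j)) K),
      (∀ j, Curve.IsBundle (g j)) →
      ∀ (b : Fin t → ℤ) (κ : Option k → K), IsLineBundle κ → IsMinSlopeNonneg g b κ →
      ∀ N : ℕ, 3 ≤ N → (∀ j, 2 ≤ (N : ℤ) + b j) →
      ∀ (m : Fin N → Fin t → ℕ) (β : Fin N → Option k → K),
        (∀ i, IsLineBundle (β i)) → (∀ i, IsPositive₃ g (m i) (β i)) →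
        ∀ w : Option k → K, (∀ a, Curve.IsCanonicalGenerator a (w a)) →
        ∀ d : Fin t → ℕ, (∀ j, (d j : ℤ) = ∑ i, (m i j : ℤ) + b j) →
          IsVeryAmple₃ g d (fun a => w a * (κ a * ∏ i, β i a))) ∧
    (∀ (t : ℕ) (n : Fin t → ℕ) (g : ∀ j, Option k → Matrix (Fin (n j)) (Fin (n j)) K),
      (∀ j, Curve.IsBundle (g j)) → (∀ j, 0 < n j) →
      (∀ (c : Fin t → ℕ) (κ' : Option k → K), IsLineBundle κ' →
        ∑ j, (c j : ℚ) * (Curve.degree (g j) / n j) ≤ lineDegree κ' →
        ∀ (y : Fin t → ℕ) (μ : Option k → K), IsLineBundle μ → IsNef₃ g y μ →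
          IsLineBundle (fun a => κ' a * μ a) ∧
          IsMinSlopeNonneg g (fun j => (y j : ℤ) - c j) (fun a => κ' a * μ a)) ∧
      IsLineBundle (fun a => ∏ j, (g j a).det) ∧
      ∑ j, (n j : ℚ) * (Curve.degree (g j) / n j) = lineDegree (fun a => ∏ j, (g j a).det)) ∧
    ∃ w : Option k → K, ∀ a, Curve.IsCanonicalGenerator a (w a) :=
  ⟨fun _ _ _ hg _ _ hκ hG _ hN hbN _ _ hβ hA _ hw _ hd =>
    mainc hg hκ hG hN hbN hβ hA hw hd,
    fun _ _ _ hg hn => ⟨fun _ _ hκ hκd _ _ hμ hL => mainc_cond hg hn hκ hκd hμ hL,
      main_det hg hn⟩,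
    light_exists_canonicalGenerator⟩

end Pool.Agent.Results.MP_e09b14_ag.FibreProducts
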