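import Mathlib
import Pool.Agent.HF.CV.MAIN

/-!
# Fujita's very ampleness conjecture for finite covers of projective bundles over curves

Let `C` be a smooth projective curve over an algebraically closed field `k` of characteristic zero,
given by its function field `K`, a finite extension of `k(x)`, let `V` be a vector bundle of rank
`n ≥ 1` on `C`, `P = ℙ(V)` the projective bundle of one-dimensional quotients of the fibres, with
projection `π`, so `dim P = n`, and let `D = O(δ) ⊗ π^* L`, where `δ ≥ 1` and `L` is a line bundle
on `C`. Sections `a_1, ..., a_d` of `D, D^2, ..., D^d`, `d ≥ 2`, define the finite cover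
`ρ : X → P` of degree `d`, the zero locus of `w^d + a_1 w^(d-1) + ... + a_d` in the total space of
`D`; for instance, all double covers of `P` and all cyclic covers `w^d = a_d` of `P` are of this
form. The only condition on `X` is that its generic fibre over `C`, a covering of `ℙ^(n-1)` over
`K`, has no singular `K`-rational point, e.g. that it is smooth. Let `A_i = O(m_i) ⊗ π^* B_i`,
`i = 1, ..., n + 2 = dim X + 2`, be ample line bundles on `P`; equivalently, their pullbacks to `X`
are ample.

As `K_P = O(-n) ⊗ π^*(K_C ⊗ det V)` and `K_X = ρ^*(K_P ⊗ D^(d-1))`, the line bundle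
`K_X ⊗ ρ^* (A_1 ⊗ ... ⊗ A_(n+2))` is `ρ^* (N ⊗ D^(d-1))` with
`N = O(∑ m_i - n) ⊗ π^* (K_C ⊗ det V ⊗ B_1 ⊗ ... ⊗ B_(n+2))`. Its sections are the
`s_0 w^(d-1) + s_1 w^(d-2) + ... + s_(d-1)` with sections `s_j` of `N ⊗ D^j`, as `ρ_* O_X` is the
direct sum of the `D^(-i)`, `0 ≤ i < d`. The theorem says that these sections have no common zero
on `X` and separate its points and its tangent vectors: `K_X ⊗ ρ^* (A_1 ⊗ ... ⊗ A_(n+2))` is very
ample. If all `A_i` are the same line bundle `A`, this is Fujita's very ampleness conjecture for `X`
and the polarization `ρ^* A`.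

The definitions are in `Pool/Agent/Helper38/Scroll/P1.lean` (orders of rational functions at the
points of the projective line, local rings), `Pool/Agent/Helper38/Scroll/Statement.lean` (curves,
vector bundles, quotient bundles, differentials), `Pool/Agent/FJ/Statement.lean` (line bundles
on `ℙ(V)`, their sections and values) and `Pool/Agent/HF/CV/Statement.lean` (covers). Main steps of
the proof: if `x` is the least slope of the quotient bundles of `V`, attained by `Q`, then
`deg V + j deg L ≥ (n - j δ) x` for `0 ≤ j ≤ d` (`cover_key`): either some `a_i` does not vanish on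
`ℙ(Q)`, and then `δ x + deg L ≥ 0` by the semistability of `Q` and of its tensor powers
(`section_slope`), or all `a_i` vanish on `ℙ(Q)`, and then, by the condition on `X`, some partial
derivative of `a_d` does not vanish at each point of `ℙ(Q)`, and the polar form of `a_d` gives the
inequality for `j = d` (`key_ineq'`). The inequality and the argument for projective bundles
(`HF/GEN.lean`, `FJ/NUM.lean`) imply that `N ⊗ D^(d-1)` is very ample and the sections of
`N ⊗ D^(d-2)` have no common zero on `P`, and the sections `s_(d-2) w + s_(d-1)` on `X` suffice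
(`isVeryAmple_cover`).
-/

set_option autoImplicit false

open Pool.Agent Pool.Agent.Helper38.Scroll Pool.Agent.FJ Pool.Agent.HF.CV

namespace Pool.Agent.Results.MP_e09b14_ag.FiniteCovers

/-- **Fujita's very ampleness conjecture for finite covers of projective bundles over curves.** Let
`V` be a vector bundle of rank `n ≥ 1` on the curve, `P = ℙ(V)`, `D = O(δ) ⊗ π^* L` with `δ ≥ 1`,
and `X` the cover `w^d + a_1 w^(d-1) + ... + a_d = 0` of `P`, `d ≥ 2`, where `a_i` is a section of
`D^i`, whose generic fibre over the curve has no singular rational point. If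
`A_i = O(m_i) ⊗ π^* B_i`, `i = 1, ..., n + 2 = dim X + 2`, are ample on `P`, then
`K_X ⊗ A_1 ⊗ ... ⊗ A_(n+2)` is very ample. (The second part says that local generators `w c` of the
canonical sheaf of the curve, as required in the first part, exist.) -/
theorem result {k K : Type} [Field k] [IsAlgClosed k] [CharZero k] [Field K]
    [Algebra (RatFunc k) K] [Algebra k K] [IsScalarTower k (RatFunc k) K]
    [FiniteDimensional (RatFunc k) K] :
    (∀ (n δ d : ℕ) (g : Option k → Matrix (Fin n) (Fin n) K), 1 ≤ n → 1 ≤ δ → 2 ≤ d →
      Curve.IsBundle g →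
      ∀ lam : Option k → K, IsLineBundle lam →
      ∀ a : Equation g δ d lam, NoSingularRationalPoint a →
      ∀ (m : Fin (n + 2) → ℕ) (β : Fin (n + 2) → Option k → K),
        (∀ i, IsLineBundle (β i)) → (∀ i, IsPositive g (m i) (β i)) →
        ∀ w : Option k → K, (∀ c, Curve.IsCanonicalGenerator c (w c)) →
          HF.CV.IsVeryAmple a (∑ i, m i - n) (fun c => w c * (g c).det * ∏ i, β i c)) ∧
    ∃ w : Option k → K, ∀ c, Curve.IsCanonicalGenerator c (w c) :=
  ⟨fun _ _ _ _ hn hδ hd hg _ hlam _ ha _ _ hβ hA _ hw => main hn hδ hd hg hlam ha hβ hA hw,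
    light_exists_canonicalGenerator⟩

end Pool.Agent.Results.MP_e09b14_ag.FiniteCovers
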