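import Mathlib
import Pool.Agent.HF.MAIN

/-!
# Fujita's very ampleness conjecture for hypersurface fibrations over curves

Let `C` be a smooth projective curve over an algebraically closed field `k` of characteristic zero,
given by its function field `K`, a finite extension of `k(x)`, let `E` be a vector bundle of rank
`n ≥ 2` on `C`, `P = ℙ(E)` the projective bundle of one-dimensional quotients of the fibres, with
projection `π`, `M` a line bundle on `C`, and let `X ⊆ P` be the hypersurface `F = 0` for a section
`F` of `O(d) ⊗ π^* M`, `d ≥ 2`. So `dim X = n - 1`, and the fibres of `X` over the points of `C` are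
hypersurfaces of degree `d` in `ℙ^(n-1)`. The only condition on `X` is that its generic fibre has
no singular rational point, e.g. that the generic fibre is smooth. Let `A_i = O(m_i) ⊗ π^* B_i`,
`i = 1, ..., n + 1 = dim X + 2`, be line bundles which are ample on `P`, or which are ample on `X`
and satisfy `m_i deg M < d deg B_i`.

As `K_P = O(-n) ⊗ π^*(K_C ⊗ det E)`, one has `K_P ⊗ O(X) ⊗ A_1 ⊗ ... ⊗ A_(n+1) = O(e) ⊗ π^* N` with
`e = ∑ m_i + d - n` and `N = K_C ⊗ det E ⊗ M ⊗ B_1 ⊗ ... ⊗ B_(n+1)`. The theorem says that this line
bundle is very ample on `P`. By adjunction its restriction to `X` is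
`K_X ⊗ A_1 ⊗ ... ⊗ A_(n+1)`, which is therefore very ample. If all `A_i` are the same line bundle
`A`, this is Fujita's very ampleness conjecture for `X` and `A`: `K_X ⊗ A^(dim X + 2)` is very
ample.

If `X → C` is smooth, then `d deg E + n deg M = 0` (the discriminant of `F` has no zeros), and the
condition `m_i deg M < d deg B_i` follows from the ampleness of `A_i` on `X` (take `Q = E` in
`IsPositiveOn`). So for smooth quadric bundles, for instance, all polarizations `O(m) ⊗ π^* B` are
covered.

The definitions are in `Pool/Agent/Helper38/Scroll/P1.lean` (orders of rational functions at the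
points of the projective line, local rings), `Pool/Agent/Helper38/Scroll/Statement.lean` (curves,
vector bundles, quotient bundles, differentials), `Pool/Agent/FJ/Statement.lean` (line bundles
on `ℙ(E)`, their sections, very ampleness) and `Pool/Agent/HF/Statement.lean` (hypersurfaces).
Main steps of the proof: the key inequality `deg E + deg M ≥ (n - d) x`, where `x` is the least
slope of the quotient bundles of `E` (`HF/KEY.lean`, `key_ineq` in `HF/MAIN.lean`): for a quotient
bundle `Q` of slope `x` and rank `q`, the polar form of `F`, with one argument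
`v_1 ∧ ... ∧ v_(n-1)` and the `d - 1` others of the form `w_1 ∧ ... ∧ w_(q-1)` in `Q`, is a nonzero
multilinear form on `E` with values in `M ⊗ det E ⊗ (det Q)^(d-1)`, and one applies that tensor
products of semistable bundles are semistable (`FJ/S/Main.lean`); then the argument for projective
bundles (`FJ/NUM.lean`: Serre duality for families of lattices and rank factorization), with a
numerical contradiction from the key inequality (`HF/GEN.lean`, `numerics` in `HF/MAIN.lean`).
-/

set_option autoImplicit false

open Pool.Agent.Helper38.Scroll Pool.Agent.FJ Pool.Agent.HF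

namespace Pool.Agent.Results.MP_e09b14_ag.HypersurfaceFibrations

/-- **Fujita's very ampleness conjecture for hypersurface fibrations over curves.** Let
`X = {F = 0}` be a hypersurface of relative degree `d ≥ 2` in `P = ℙ(E)`, `E` of rank `n ≥ 2`,
whose generic fibre has no singular rational point. If `A_i = O(m_i) ⊗ π^* B_i`,
`i = 1, ..., n + 1 = dim X + 2`, are ample on `P`, or ample on `X` with `m_i deg M < d deg B_i`,
then `K_P ⊗ O(X) ⊗ A_1 ⊗ ... ⊗ A_(n+1)`, which restricts to `K_X ⊗ A_1 ⊗ ... ⊗ A_(n+1)` on `X`, is
very ample. (The second part says that local generators `w a` of the canonical sheaf, as required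
in the first part, exist.) -/
theorem result {k K : Type} [Field k] [IsAlgClosed k] [CharZero k] [Field K]
    [Algebra (RatFunc k) K] [Algebra k K] [IsScalarTower k (RatFunc k) K]
    [FiniteDimensional (RatFunc k) K] :
    (∀ (n d : ℕ) (g : Option k → Matrix (Fin n) (Fin n) K), 2 ≤ n → 2 ≤ d → Curve.IsBundle g →
      ∀ μ : Option k → K, IsLineBundle μ →
      ∀ F : GlobalSection g d μ, NoSingularRationalPoint F →
      ∀ (m : Fin (n + 1) → ℕ) (β : Fin (n + 1) → Option k → K),
        (∀ i, IsLineBundle (β i)) →
        (∀ i, IsPositive g (m i) (β i) ∨
          IsPositiveOn F (m i) (β i) ∧ m i * lineDegree μ < d * lineDegree (β i)) →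
        ∀ w : Option k → K, (∀ a, Curve.IsCanonicalGenerator a (w a)) →
          IsVeryAmple g (∑ i, m i + d - n)
            (fun a => w a * (g a).det * (μ a * ∏ i, β i a))) ∧
    ∃ w : Option k → K, ∀ a, Curve.IsCanonicalGenerator a (w a) :=
  ⟨fun _ _ _ hn hd hg _ hμ F hF _ _ hβ hA _ hw => main hn hd hg hμ F hF hβ hA hw,
    light_exists_canonicalGenerator⟩

end Pool.Agent.Results.MP_e09b14_ag.HypersurfaceFibrations
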