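import Pool.Agent.Helper39.TV.Main

/-!
# Fujita's very ampleness conjecture for rational varieties with a torus action of complexity one

By Hausen, Herppich and Süss every smooth projective rational variety `X` of dimension `n` with an
effective action of a torus of dimension `n - 1` has a Cox ring of the following form.  The
generators are `z_v` (`v : V`) and `p_0, p_1`; some of the `z_v` are put into blocks `i : ι`, and
every block gives one relation `∏ z_v ^ (l_v) = a_{i0} p_0 + a_{i1} p_1` (product over the block),
the linear forms being pairwise independent.  The grading group is `K = Pic X`.  `X` is the quotient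
of the semistable points for an ample class `A` by the free action of `H = Hom(K, ℂˣ)`, the sections
of a line bundle `w : K` are the homogeneous elements of degree `w`, and the canonical class is
`(|ι| - 2) deg p - ∑ deg z_v`.
-/

open MvPolynomial

namespace Pool.Agent.Results.MP_e09b14_ag.TorusComplexityOne

/-- Data of a trinomial Cox ring: `block v` is the block of `z_v` (`none`: `z_v` is free),
`exponent v` is the exponent `l_v`, `coeff i` are the two coefficients of the linear form of block
`i`, `degree v` is the degree of `z_v` and `degreeP` is the degree of `p_0` and of `p_1`. -/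
structure CoxRing (V ι K : Type) where
  block : V → Option ι
  exponent : V → ℕ
  coeff : ι → Fin 2 → ℂ
  degree : V → K
  degreeP : K

variable {V ι K : Type} [Fintype V] [DecidableEq V] [Fintype ι] [DecidableEq ι] [AddCommGroup K]

namespace CoxRing

variable (R : CoxRing V ι K)

/-- degrees of the coordinates `z_v` (index `inl v`) and `p_0, p_1` (index `inr 0`, `inr 1`) -/
def wt : V ⊕ Fin 2 → K := Sum.elim R.degree (fun _ => R.degreeP)

/-- the relation of block `i` -/
noncomputable def relation (i : ι) : MvPolynomial (V ⊕ Fin 2) ℂ :=
  (∏ v ∈ Finset.univ.filter (fun v => R.block v = some i), X (Sum.inl v) ^ R.exponent v) -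
    (C (R.coeff i 0) * X (Sum.inr 0) + C (R.coeff i 1) * X (Sum.inr 1))

/-- the total coordinate space: the points of the spectrum of the Cox ring -/
def total : Set (V ⊕ Fin 2 → ℂ) := {x | ∀ i, eval x (R.relation i) = 0}

/-- homogeneous elements of degree `w`: the sections of the line bundle `w` -/
def IsSection (w : K) (f : MvPolynomial (V ⊕ Fin 2) ℂ) : Prop := IsWeightedHomogeneous R.wt f w

/-- the semistable points for the class `A`: some section of a positive multiple of `A` does not
vanish.  The points of `X` are the orbits of `H` on this set. -/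
def semistable (A : K) : Set (V ⊕ Fin 2 → ℂ) :=
  {x | x ∈ R.total ∧ ∃ m : ℕ, 0 < m ∧ ∃ f, R.IsSection (m • A) f ∧ eval x f ≠ 0}

/-- derivative of `f` at `x` in the direction `ξ` -/
noncomputable def derivative (x ξ : V ⊕ Fin 2 → ℂ) (f : MvPolynomial (V ⊕ Fin 2) ℂ) : ℂ :=
  ∑ s, ξ s * eval x (pderiv s f)

/-- tangent vectors of the total coordinate space at `x` -/
def tangent (x : V ⊕ Fin 2 → ℂ) : Set (V ⊕ Fin 2 → ℂ) := {ξ | ∀ i, derivative x ξ (R.relation i) = 0}

/-- `x` and `y` are in the same orbit of `H = Hom(K, ℂˣ)`: they are the same point of `X` -/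
def SamePoint (x y : V ⊕ Fin 2 → ℂ) : Prop :=
  ∃ h : Multiplicative K →* ℂˣ, ∀ s, y s = (h (Multiplicative.ofAdd (R.wt s)) : ℂ) * x s

/-- `ξ` is tangent to the `H`-orbit of `x`: it is zero as a tangent vector of `X` -/
def TangentToOrbit (x ξ : V ⊕ Fin 2 → ℂ) : Prop := ∃ χ : K →+ ℂ, ∀ s, ξ s = χ (R.wt s) * x s

/-- the canonical class of `X` -/
def canonical : K := ((Fintype.card ι : ℤ) - 2) • R.degreeP - ∑ v, R.degree v

/-- `R` is the Cox ring of a smooth projective variety `X` of dimension `n` with an effective action
of a torus of dimension `n - 1` and `A` is the class of an ample line bundle on `X` -/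
structure IsSmoothProjective (A : K) (n : ℕ) : Prop where
  /-- exponents are positive -/
  exponent_pos : ∀ v, 0 < R.exponent v
  /-- there are at least two blocks -/
  two_blocks : ∃ i j : ι, i ≠ j
  /-- the linear forms are pairwise independent -/
  independent : ∀ i j, i ≠ j → R.coeff i 0 * R.coeff j 1 ≠ R.coeff i 1 * R.coeff j 0
  /-- the relations are homogeneous -/
  homogeneous : ∀ i, ∑ v with R.block v = some i, R.exponent v • R.degree v = R.degreeP
  /-- `X` is projective: only the constant monomial has degree zero -/
  pointed : ∀ b : V ⊕ Fin 2 →₀ ℕ, Finsupp.weight R.wt b = 0 → b = 0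
  /-- the acting group is connected: its group of characters, the vectors of degree zero modulo the
  differences of the exponent vectors of the blocks, has no torsion -/
  connected : ∀ a : V → ℤ, ∑ v, a v • R.degree v = 0 → ∀ m : ℤ, m ≠ 0 →
    (∃ c : ι → ℤ, ∑ i, c i = 0 ∧
      ∀ v, m * a v = (R.block v).elim 0 (fun i => c i * (R.exponent v : ℤ))) →
    ∃ c : ι → ℤ, ∑ i, c i = 0 ∧ ∀ v, a v = (R.block v).elim 0 (fun i => c i * (R.exponent v : ℤ))
  /-- `H` acts freely on the semistable points -/
  free : ∀ x ∈ R.semistable A, ∀ h : Multiplicative K →* ℂˣ,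
    (∀ s, (h (Multiplicative.ofAdd (R.wt s)) : ℂ) * x s = x s) → h = 1
  /-- the total coordinate space is smooth at the semistable points (Jacobian criterion) -/
  smooth : ∀ x ∈ R.semistable A, LinearIndependent ℂ (fun i s => eval x (pderiv s (R.relation i)))
  /-- the dimension of `X` is `n` -/
  dim : Fintype.card V + 2 = n + Fintype.card ι + Module.finrank ℤ K

/-- the line bundle `w` on `X` is very ample: its sections have no common zero, separate points and
separate tangent vectors -/
structure VeryAmple (A w : K) : Prop where
  no_common_zero : ∀ x ∈ R.semistable A, ∃ f, R.IsSection w f ∧ eval x f ≠ 0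
  separates_points : ∀ x ∈ R.semistable A, ∀ y ∈ R.semistable A, ¬ R.SamePoint x y →
    ∃ f, R.IsSection w f ∧ eval x f = 0 ∧ eval y f ≠ 0
  separates_tangents : ∀ x ∈ R.semistable A, ∀ ξ ∈ R.tangent x, ¬ R.TangentToOrbit x ξ →
    ∃ f, R.IsSection w f ∧ eval x f = 0 ∧ derivative x ξ f ≠ 0

end CoxRing

open Pool.Agent.Helper39.TV in
/-- translation to the data of the proof -/
def toCoxData (R : CoxRing V ι K) : CoxData V ι K :=
  { blk := R.block, l := R.exponent, deg := R.degree, mu := R.degreeP, a := R.coeff }

/-- **Fujita's very ampleness conjecture for smooth projective rational varieties with a torus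
action of complexity one**: `K_X + m A` is very ample for every ample `A` and every
`m ≥ dim X + 2`. -/
theorem result (R : CoxRing V ι K) (A : K) (n : ℕ) (hR : R.IsSmoothProjective A n) (m : ℕ)
    (hm : n + 2 ≤ m) : R.VeryAmple A (R.canonical + m • A) := by
  have h : (toCoxData R).SmoothProjective A n :=
    ⟨hR.exponent_pos, hR.two_blocks, hR.independent, hR.homogeneous, hR.pointed, hR.connected,
      hR.free, hR.smooth, hR.dim⟩
  have hv := Pool.Agent.Helper39.TV.CoxData.main h hm
  exact ⟨hv.bpf, hv.sep, hv.tan⟩

end Pool.Agent.Results.MP_e09b14_ag.TorusComplexityOne
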